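import Pool.Agent.Work.MP_b29d7f_nt_helper80.MerB

/-!
# Block MER
-/

set_option linter.unusedSectionVars false

namespace Pool.Agent.Work.MP_b29d7f_nt.FF

open Finset Polynomial
open Pool.Agent.Work.MP_b29d7f_nt.Ded

universe u

namespace Pack

variable {R : Type u} [CommRing R] [IsDedekindDomain R] [Ring.HasFiniteQuotients R] [Infinite R]
  {S : Type u} [Fintype S] (P : Pack R S)

theorem Mm_succ (j : ℕ) : P.Mm (j + 1) = P.Mm j + (P.Nn (j + 1) : ℝ) / (P.q : ℝ) ^ (j + 1) := by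
  unfold Mm
  rw [Finset.sum_Icc_succ_top (by omega)]

theorem K0_mono {i j : ℕ} (h : i ≤ j) : P.K0 i ≤ P.K0 j := by
  apply Finset.sum_le_sum_of_subset_of_nonneg
  · intro k hk
    rw [Finset.mem_Icc] at hk ⊢
    omega
  · intro k _ _
    exact Nat.cast_nonneg _

theorem Mm_sub_le {i j : ℕ} (h : i ≤ j) : P.Mm j - P.Mm i ≤ ((P.q : ℝ) ^ i)⁻¹ * P.K0 j := by
  have h3 : P.Mm j = P.Mm i + ∑ k ∈ Ioc i j, (P.Nn k : ℝ) / (P.q : ℝ) ^ k := by
    unfold Mm
    have h4 : Icc 1 j = Icc 1 i ∪ Ioc i j := by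
      ext k
      simp only [Finset.mem_Icc, Finset.mem_union, Finset.mem_Ioc]
      omega
    have h5 : Disjoint (Icc 1 i) (Ioc i j) := by
      rw [Finset.disjoint_left]
      intro k
      simp only [Finset.mem_Icc, Finset.mem_Ioc]
      omega
    rw [h4, Finset.sum_union h5]
  rw [h3, add_sub_cancel_left, K0, Finset.mul_sum]
  refine (Finset.sum_le_sum fun k hk => ?_).trans (Finset.sum_le_sum_of_subset_of_nonneg
    (f := fun k => ((P.q : ℝ) ^ i)⁻¹ * (P.Nn k : ℝ)) ?_ fun k _ _ => ?_)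
  · rw [Finset.mem_Ioc] at hk
    rw [div_eq_mul_inv, mul_comm]
    apply mul_le_mul_of_nonneg_right _ (Nat.cast_nonneg _)
    apply inv_anti₀ (pow_pos P.q_pos' _)
    exact pow_le_pow_right₀ P.one_lt_q'.le (by omega)
  · intro k hk
    rw [Finset.mem_Ioc] at hk
    rw [Finset.mem_Icc]
    omega
  · have := P.q_pos'
    positivity

open scoped Classical in
/-- primes of degree exactly `m` and the others -/
theorem Nn_le (m : ℕ) : (P.Nn m : ℝ) ≤
    ∑ p ∈ (P.primes m).filter (fun p => P.dg p = m), (P.dg p : ℝ) + P.K0 (m / 2) := by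
  have h1 : (P.primes m).filter (fun p => P.dg p ∣ m) ⊆
      (P.primes m).filter (fun p => P.dg p = m) ∪ P.primes (m / 2) := by
    intro p hp
    rw [Finset.mem_filter, P.mem_primes] at hp
    obtain ⟨⟨hp1, hp2, hp3⟩, k, hk⟩ := hp
    rw [Finset.mem_union, Finset.mem_filter, P.mem_primes, P.mem_primes]
    by_cases h : P.dg p = m
    · exact Or.inl ⟨⟨hp1, hp2, hp3⟩, h⟩
    · right
      refine ⟨hp1, hp2, ?_⟩
      have h2 : 2 ≤ k := by
        by_contra hcon
        have h3 : k = 0 ∨ k = 1 := by omega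
        rcases h3 with rfl | rfl
        · have := P.one_le_dg hp1 hp2
          omega
        · exact h (by omega)
      rw [Nat.le_div_iff_mul_le (by norm_num)]
      calc P.dg p * 2 ≤ P.dg p * k := Nat.mul_le_mul_left _ h2
        _ = m := hk.symm
  have h2 : (P.Nn m : ℝ) ≤ ∑ p ∈ (P.primes m).filter (fun p => P.dg p = m) ∪ P.primes (m / 2),
      (P.dg p : ℝ) := by
    rw [Nn, Nat.cast_sum]
    exact Finset.sum_le_sum_of_subset_of_nonneg h1 fun _ _ _ => Nat.cast_nonneg _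
  refine h2.trans ?_
  have h3 : ∑ p ∈ (P.primes m).filter (fun p => P.dg p = m) ∪ P.primes (m / 2), (P.dg p : ℝ) ≤
      ∑ p ∈ (P.primes m).filter (fun p => P.dg p = m), (P.dg p : ℝ) +
        ∑ p ∈ P.primes (m / 2), (P.dg p : ℝ) := by
    rw [← Finset.sum_union_inter]
    have : 0 ≤ ∑ p ∈ (P.primes m).filter (fun p => P.dg p = m) ∩ P.primes (m / 2), (P.dg p : ℝ) :=
      Finset.sum_nonneg fun _ _ => Nat.cast_nonneg _
    linarith
  refine h3.trans (add_le_add le_rfl ?_)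
  -- primes of degree at most `m / 2`
  have h4 : P.K0 (m / 2) = ∑ p ∈ P.primes (m / 2), ∑ k ∈ Icc 1 (m / 2 / P.dg p), (P.dg p : ℝ) := by
    rw [← P.sum_reindex (m / 2) fun p _ => (P.dg p : ℝ), K0]
    apply Finset.sum_congr rfl
    intro i _
    rw [Nn, Nat.cast_sum]
  rw [h4]
  apply Finset.sum_le_sum
  intro p hp
  rw [P.mem_primes] at hp
  rw [Finset.sum_const, Nat.card_Icc, Nat.add_sub_cancel, nsmul_eq_mul]
  have h5 : 1 ≤ m / 2 / P.dg p := Nat.div_pos hp.2.2 (P.one_le_dg hp.1 hp.2.1)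
  have h6 : (1 : ℝ) ≤ ((m / 2 / P.dg p : ℕ) : ℝ) := by exact_mod_cast h5
  have h7 : (0 : ℝ) ≤ P.dg p := Nat.cast_nonneg _
  nlinarith

end Pack

theorem stmt_Mer : Stmt_Mer.{u} := by
  intro R _ _ _ _ S _ _ P
  classical
  obtain ⟨C1, hC1, hN⟩ := P.exists_cheb
  obtain ⟨C2, hC2, hM⟩ := P.exists_le_Mm
  obtain ⟨C3, hC3, hpot⟩ := P.exists_pot_le
  have hK := P.K0_le hC1 hN
  have hq0 : ∀ j : ℕ, 0 < (P.q : ℝ) ^ j := fun j => pow_pos P.q_pos' _
  have hq2 : (2 : ℝ) ≤ P.q := by exact_mod_cast P.two_le_q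
  -- upper bound of `M`
  have hMu : ∀ j : ℕ, P.Mm j ≤ j + (C3 + 2 * C1) := by
    intro j
    have h1 := hpot j
    rw [P.pot_eq] at h1
    have h2 := hK j
    have h3 : (P.q : ℝ) ^ j * P.Mm j ≤ (P.q : ℝ) ^ j * (j + (C3 + 2 * C1)) := by nlinarith
    exact le_of_mul_le_mul_left h3 (hq0 j)
  obtain ⟨H, hH⟩ := exists_nat_ge (C2 + (C3 + 2 * C1) + 1)
  set C := C2 + C3 + 2 * C1 + (P.q : ℝ) ^ H + 4 with hC
  have hC0 : 0 < C := by have := hq0 H; positivity
  refine ⟨C, hC0, ?_, ?_, ⟨H, ?_⟩, ?_, ?_⟩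
  · intro j
    rw [abs_le]
    have h1 := hpot j
    have h2 := hM j
    have h3 := hK j
    have h4 := hq0 j
    have h5 := hq0 H
    constructor
    · rw [P.pot_eq]
      have h6 : (P.q : ℝ) ^ j * (j - C2) ≤ (P.q : ℝ) ^ j * P.Mm j :=
        mul_le_mul_of_nonneg_left h2 h4.le
      have h7 : (C2 + 2 * C1) * (P.q : ℝ) ^ j ≤ C * (P.q : ℝ) ^ j :=
        mul_le_mul_of_nonneg_right (by rw [hC]; linarith) h4.le
      nlinarith
    · have h7 : C3 * (P.q : ℝ) ^ j ≤ C * (P.q : ℝ) ^ j :=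
        mul_le_mul_of_nonneg_right (by rw [hC]; linarith) h4.le
      nlinarith
  · intro j
    have h5 := hq0 H
    exact (hK j).trans (mul_le_mul_of_nonneg_right (by rw [hC]; linarith) (hq0 j).le)
  · intro j hj
    have h1 := P.Mm_sub_le (i := j - H) (j := j) (by omega)
    have h2 := hM j
    have h3 := hMu (j - H)
    have h4 : ((j - H : ℕ) : ℝ) = j - H := by
      rw [Nat.cast_sub hj]
    rw [h4] at h3
    have h5 : 1 ≤ ((P.q : ℝ) ^ (j - H))⁻¹ * P.K0 j := by linarith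
    have h6 : (P.q : ℝ) ^ (j - H) ≤ P.K0 j := by
      rw [inv_mul_eq_div, le_div_iff₀ (hq0 _), one_mul] at h5
      exact h5
    have h7 : (P.q : ℝ) ^ j = (P.q : ℝ) ^ H * (P.q : ℝ) ^ (j - H) := by
      rw [← pow_add]; congr 1; omega
    rw [h7]
    have h8 : (P.q : ℝ) ^ H ≤ C := by rw [hC]; linarith
    exact mul_le_mul h8 h6 (hq0 _).le hC0.le
  · intro B hB
    have hB0 : 0 < B.card := Finset.card_pos.2 hB
    have hBr : (0 : ℝ) < B.card := by exact_mod_cast hB0
    set j := Nat.log P.q B.card with hj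
    have h1 : P.q ^ j ≤ B.card := Nat.pow_log_le_self _ hB0.ne'
    have h2 : B.card < P.q ^ (j + 1) := Nat.lt_pow_succ_log_self P.two_le_q _
    have h1' : (P.q : ℝ) ^ j ≤ B.card := by exact_mod_cast h1
    have h2' : (B.card : ℝ) ≤ (P.q : ℝ) ^ (j + 1) := by exact_mod_cast h2.le
    have h3 := (stmt_Pot R S P).2.2 B j
    have h4 : ∑ i ∈ Icc 1 j, (P.Nn i : ℝ) * ((B.card : ℝ) * ((B.card : ℝ) / (P.q : ℝ) ^ i - 1)) =
        (B.card : ℝ) ^ 2 * P.Mm j - B.card * P.K0 j := by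
      unfold Pack.Mm Pack.K0
      rw [Finset.mul_sum, Finset.mul_sum, ← Finset.sum_sub_distrib]
      apply Finset.sum_congr rfl
      intro i _
      ring
    rw [h4] at h3
    refine le_trans ?_ h3
    have h5 := hM j
    have h6 := hK j
    have h7 : P.lg B.card ≤ j + 1 := by
      unfold Pack.lg
      rw [Real.logb_le_iff_le_rpow P.one_lt_q' hBr]
      have : (P.q : ℝ) ^ ((j : ℝ) + 1) = (P.q : ℝ) ^ (j + 1) := by
        rw [← Real.rpow_natCast]
        push_cast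
        rfl
      rw [this]
      exact h2'
    have h8 : (B.card : ℝ) * P.K0 j ≤ (B.card : ℝ) ^ 2 * (2 * C1) := by
      have : P.K0 j ≤ 2 * C1 * B.card := h6.trans (mul_le_mul_of_nonneg_left h1' (by positivity))
      nlinarith
    have h9 : (B.card : ℝ) ^ 2 * (j - C2) ≤ (B.card : ℝ) ^ 2 * P.Mm j :=
      mul_le_mul_of_nonneg_left h5 (by positivity)
    have h10 : (B.card : ℝ) ^ 2 * (P.lg B.card - C) ≤ (B.card : ℝ) ^ 2 * (j - C2 - 2 * C1) := by
      apply mul_le_mul_of_nonneg_left _ (by positivity)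
      have := hq0 H
      rw [hC]
      linarith
    nlinarith
  · intro m₀
    by_contra hcon
    push Not at hcon
    -- `2 C1 q^{m/2} ≤ q^m / 4` for large `m`
    obtain ⟨L, hL⟩ := exists_nat_ge (8 * C1)
    have hsmall : ∀ m : ℕ, 2 * L ≤ m → P.K0 (m / 2) ≤ (P.q : ℝ) ^ m / 4 := by
      intro m hm
      have h1 := hK (m / 2)
      have h2 : (P.q : ℝ) ^ m = (P.q : ℝ) ^ (m - m / 2) * (P.q : ℝ) ^ (m / 2) := by
        rw [← pow_add]; congr 1; omega
      have h3 : 8 * C1 ≤ (P.q : ℝ) ^ (m - m / 2) := by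
        refine hL.trans ((P.le_pow' L).trans ?_)
        exact pow_le_pow_right₀ P.one_lt_q'.le (by omega)
      have h4 := hq0 (m / 2)
      rw [h2]
      nlinarith
    set m₁ := max m₀ (2 * L) with hm₁
    have hNn : ∀ m : ℕ, m₁ ≤ m → (P.Nn m : ℝ) / (P.q : ℝ) ^ m ≤ 1 / 2 := by
      intro m hm
      have h1 := hcon m ((le_max_left _ _).trans hm)
      have h2 := hsmall m ((le_max_right _ _).trans hm)
      have h3 := P.Nn_le m
      have h4 := hq0 m
      have h5 : 4 * ∑ p ∈ (P.primes m).filter (fun p => P.dg p = m), (P.dg p : ℝ) ≤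
          C * ∑ p ∈ (P.primes m).filter (fun p => P.dg p = m), (P.dg p : ℝ) := by
        apply mul_le_mul_of_nonneg_right _ (Finset.sum_nonneg fun _ _ => Nat.cast_nonneg _)
        have := hq0 H
        rw [hC]
        linarith
      rw [div_le_iff₀ h4]
      linarith
    have hup : ∀ k : ℕ, P.Mm (m₁ + k) ≤ P.Mm m₁ + k / 2 := by
      intro k
      induction k with
      | zero => simp
      | succ k ih =>
        rw [← add_assoc, P.Mm_succ]
        have := hNn (m₁ + k + 1) (by omega)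
        push_cast
        linarith
    obtain ⟨k, hk⟩ := exists_nat_gt (2 * (P.Mm m₁ + C2))
    have h1 := hup k
    have h2 := hM (m₁ + k)
    push_cast at h2
    have h3 : (0 : ℝ) ≤ m₁ := Nat.cast_nonneg _
    linarith

end Pool.Agent.Work.MP_b29d7f_nt.FF
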