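import Pool.Agent.Work.MP_b29d7f_nt.FF.Basic

/-!
# Block FACT
-/

set_option linter.unusedSectionVars false

namespace Pool.Agent.Work.MP_b29d7f_nt.FF

open Finset Polynomial
open Pool.Agent.Work.MP_b29d7f_nt.Ded

universe u

namespace Pack

variable {R : Type u} [CommRing R] [IsDedekindDomain R] [Ring.HasFiniteQuotients R] [Infinite R]
  {S : Type u} [Fintype S] (P : Pack R S)

open scoped Classical in
/-- Reindexing of sums over prime powers by their degree. -/
theorem sum_reindex (D : ℕ) (F : Ideal R → ℕ → ℝ) :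
    ∑ i ∈ Icc 1 D, ∑ p ∈ (P.primes i).filter (fun p => P.dg p ∣ i), F p (i / P.dg p) =
      ∑ p ∈ P.primes D, ∑ k ∈ Icc 1 (D / P.dg p), F p k := by
  rw [Finset.sum_sigma', Finset.sum_sigma']
  refine Finset.sum_nbij' (fun a => ⟨a.2, a.1 / P.dg a.2⟩) (fun b => ⟨b.2 * P.dg b.1, b.1⟩)
    ?_ ?_ ?_ ?_ ?_
  · rintro ⟨i, p⟩ h
    simp only [Finset.mem_sigma, Finset.mem_Icc, Finset.mem_filter, P.mem_primes] at h ⊢
    obtain ⟨⟨h1, h2⟩, ⟨h3, h4, h5⟩, h6⟩ := h
    have h7 := P.one_le_dg h3 h4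
    exact ⟨⟨h3, h4, h5.trans h2⟩, Nat.div_pos h5 h7, Nat.div_le_div_right h2⟩
  · rintro ⟨p, k⟩ h
    simp only [Finset.mem_sigma, Finset.mem_Icc, Finset.mem_filter, P.mem_primes] at h ⊢
    obtain ⟨⟨h3, h4, h5⟩, h1, h2⟩ := h
    have h7 := P.one_le_dg h3 h4
    have h8 : k * P.dg p ≤ D := (Nat.le_div_iff_mul_le h7).1 h2
    have h9 : P.dg p ≤ k * P.dg p := Nat.le_mul_of_pos_left _ h1
    exact ⟨⟨by omega, h8⟩, ⟨h3, h4, h9⟩, Dvd.intro_left k rfl⟩
  · rintro ⟨i, p⟩ h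
    simp only [Finset.mem_sigma, Finset.mem_Icc, Finset.mem_filter, P.mem_primes] at h
    obtain ⟨-, -, h6⟩ := h
    simp only [Nat.div_mul_cancel h6]
  · rintro ⟨p, k⟩ h
    simp only [Finset.mem_sigma, Finset.mem_Icc, P.mem_primes] at h
    obtain ⟨⟨h3, h4, -⟩, -⟩ := h
    have h7 := P.one_le_dg h3 h4
    simp only [Nat.mul_div_cancel k h7]
  · rintro ⟨i, p⟩ _
    rfl

open scoped Classical in
/-- The factorisation of a nonzero ideal. -/
theorem exists_mult (J : Ideal R) (hJ : J ≠ ⊥) :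
    ∃ c : Ideal R → ℕ, (∀ p : Ideal R, p.IsPrime → p ≠ ⊥ → ∀ k : ℕ, p ^ k ∣ J ↔ k ≤ c p) ∧
      (∀ p : Ideal R, p.IsPrime → p ≠ ⊥ → c p * P.dg p ≤ P.dg J) ∧
      ∀ D, P.dg J ≤ D → ∑ p ∈ P.primes D, c p * P.dg p = P.dg J := by
  have hJ0 : J ≠ 0 := hJ
  set s := UniqueFactorizationMonoid.normalizedFactors J with hs
  have hc : ∀ p : Ideal R, p.IsPrime → p ≠ ⊥ → ∀ k : ℕ, p ^ k ∣ J ↔ k ≤ s.count p := by
    intro p hp h0 k
    have h1 := UniqueFactorizationMonoid.emultiplicity_eq_count_normalizedFactors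
      (Ideal.prime_of_isPrime h0 hp).irreducible hJ0
    rw [pow_dvd_iff_le_emultiplicity, h1, normalize_eq, Nat.cast_le]
  have hle : ∀ p : Ideal R, p.IsPrime → p ≠ ⊥ → s.count p * P.dg p ≤ P.dg J := by
    intro p hp h0
    have h1 := (hc p hp h0 _).2 le_rfl
    have h2 := P.dg_le_dg hJ (Ideal.dvd_iff_le.1 h1)
    rwa [P.dg_pow h0] at h2
  have hmem : ∀ p ∈ s, p.IsPrime ∧ p ≠ ⊥ := by
    intro p hp
    have h1 := UniqueFactorizationMonoid.prime_of_normalized_factor p hp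
    exact ⟨Ideal.isPrime_of_prime h1, h1.ne_zero⟩
  have hprod : s.prod = J := by
    have := UniqueFactorizationMonoid.prod_normalizedFactors hJ0
    rwa [associated_iff_eq] at this
  have hdg : ∀ s : Multiset (Ideal R), (∀ p ∈ s, p.IsPrime ∧ p ≠ ⊥) →
      s.prod ≠ ⊥ ∧ P.dg s.prod = (s.map P.dg).sum := by
    intro s
    induction s using Multiset.induction_on with
    | empty =>
      intro _
      rw [Multiset.prod_zero, Multiset.map_zero, Multiset.sum_zero, Ideal.one_eq_top]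
      exact ⟨top_ne_bot, P.dg_top⟩
    | cons p s ih =>
      intro h
      obtain ⟨h1, h2⟩ := ih fun q hq => h q (Multiset.mem_cons_of_mem hq)
      have h3 := (h p (Multiset.mem_cons_self _ _)).2
      rw [Multiset.prod_cons, Multiset.map_cons, Multiset.sum_cons, P.dg_mul h3 h1, h2]
      exact ⟨mul_ne_zero h3 h1, rfl⟩
  refine ⟨fun p => s.count p, hc, hle, fun D hD => ?_⟩
  have h1 : P.dg J = ∑ p ∈ s.toFinset, s.count p * P.dg p := by
    rw [← hprod, (hdg s hmem).2, Finset.sum_multiset_map_count]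
    rfl
  rw [h1]
  symm
  apply Finset.sum_subset
  · intro p hp
    rw [Multiset.mem_toFinset] at hp
    obtain ⟨h2, h3⟩ := hmem p hp
    rw [P.mem_primes]
    refine ⟨h2, h3, le_trans ?_ hD⟩
    refine le_trans ?_ (hle p h2 h3)
    exact Nat.le_mul_of_pos_left _ (Multiset.count_pos.2 hp)
  · intro p _ hp
    rw [Multiset.mem_toFinset] at hp
    rw [Multiset.count_eq_zero.2 hp, zero_mul]

end Pack

theorem stmt_Fact : Stmt_Fact.{u} := by
  intro R _ _ _ _ S _ P I hI x hx hx0 D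
  classical
  have hx0' : Ideal.span {x} ≠ ⊥ := by rwa [Ne, Ideal.span_singleton_eq_bot]
  obtain ⟨J, hJ⟩ := Ideal.dvd_span_singleton.2 hx
  have hJ0 : J ≠ ⊥ := by
    rintro rfl
    rw [Ideal.mul_bot] at hJ
    exact hx0' hJ
  have hdg : P.dg (Ideal.span {x}) = P.dg I + P.dg J := by rw [hJ, P.dg_mul hI hJ0]
  obtain ⟨c, hc1, hc2, hc3⟩ := P.exists_mult J hJ0
  have hiff : ∀ p : Ideal R, p.IsPrime → p ≠ ⊥ → ∀ k : ℕ, x ∈ p ^ k * I ↔ k ≤ c p := by
    intro p hp h0 k
    rw [← Ideal.dvd_span_singleton, hJ, mul_comm, ← hc1 p hp h0 k]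
    exact mul_dvd_mul_iff_left (hI : I ≠ 0)
  have hsum : ∑ i ∈ Icc 1 D, ∑ p ∈ (P.primes i).filter (fun p => P.dg p ∣ i),
      (P.dg p : ℝ) * (if x ∈ p ^ (i / P.dg p) * I then 1 else 0) =
      ∑ p ∈ P.primes D, (P.dg p : ℝ) * (min (D / P.dg p) (c p) : ℕ) := by
    rw [P.sum_reindex D fun p k => (P.dg p : ℝ) * (if x ∈ p ^ k * I then 1 else 0)]
    apply Finset.sum_congr rfl
    intro p hp
    rw [P.mem_primes] at hp
    rw [← Finset.mul_sum]
    congr 1
    have h1 : ∀ k ∈ Icc 1 (D / P.dg p), (if x ∈ p ^ k * I then (1 : ℝ) else 0) =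
        if k ≤ c p then 1 else 0 := by
      intro k _
      simp only [hiff p hp.1 hp.2.1]
    rw [Finset.sum_congr rfl h1, Finset.sum_boole]
    congr 1
    have h2 : (Icc 1 (D / P.dg p)).filter (fun k => k ≤ c p) = Icc 1 (min (D / P.dg p) (c p)) := by
      ext k
      simp only [Finset.mem_filter, Finset.mem_Icc, le_min_iff]
      tauto
    rw [h2, Nat.card_Icc, Nat.add_sub_cancel]
  rw [hsum, hdg]
  constructor
  · have h1 : ∑ p ∈ P.primes D, (P.dg p : ℝ) * (min (D / P.dg p) (c p) : ℕ) ≤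
        ∑ p ∈ P.primes (max D (P.dg J)), (P.dg p : ℝ) * (c p : ℕ) := by
      refine (Finset.sum_le_sum (g := fun p => (P.dg p : ℝ) * (c p : ℕ)) fun p _ => ?_).trans ?_
      · apply mul_le_mul_of_nonneg_left _ (Nat.cast_nonneg _)
        exact_mod_cast min_le_right _ _
      · apply Finset.sum_le_sum_of_subset_of_nonneg
        · intro p hp
          rw [P.mem_primes] at hp ⊢
          exact ⟨hp.1, hp.2.1, hp.2.2.trans (le_max_left _ _)⟩
        · intro p _ _
          positivity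
    have h2 : ∑ p ∈ P.primes (max D (P.dg J)), (P.dg p : ℝ) * (c p : ℕ) = P.dg J := by
      conv_rhs => rw [← hc3 (max D (P.dg J)) (le_max_right _ _)]
      push_cast
      exact Finset.sum_congr rfl fun p _ => mul_comm _ _
    rw [Nat.cast_add, add_sub_cancel_left]
    exact h1.trans h2.le
  · intro hD
    have hD' : P.dg J ≤ D := by omega
    have h2 : ∑ p ∈ P.primes D, (P.dg p : ℝ) * (min (D / P.dg p) (c p) : ℕ) = P.dg J := by
      conv_rhs => rw [← hc3 D hD']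
      rw [Nat.cast_sum]
      apply Finset.sum_congr rfl
      intro p hp
      rw [P.mem_primes] at hp
      rw [Nat.cast_mul, mul_comm]
      congr 1
      have h3 : c p ≤ D / P.dg p := by
        rw [Nat.le_div_iff_mul_le (P.one_le_dg hp.1 hp.2.1)]
        exact (hc2 p hp.1 hp.2.1).trans hD'
      exact_mod_cast min_eq_right h3
    rw [h2, Nat.cast_add, add_sub_cancel_left]

end Pool.Agent.Work.MP_b29d7f_nt.FF
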