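import Pool.Agent.Work.MP_b29d7f_nt_helper80.Pot

/-!
# Block MER, part A: Chebyshev bound, upper bound of the potential
-/

set_option linter.unusedSectionVars false

namespace Pool.Agent.Work.MP_b29d7f_nt.FF

open Finset Polynomial
open Pool.Agent.Work.MP_b29d7f_nt.Ded

universe u

namespace Pack

variable {R : Type u} [CommRing R] [IsDedekindDomain R] [Ring.HasFiniteQuotients R] [Infinite R]
  {S : Type u} [Fintype S] (P : Pack R S)

/-- `M(j) = ∑_{i ≤ j} N_i q^{-i}` -/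
noncomputable def Mm (j : ℕ) : ℝ := ∑ i ∈ Icc 1 j, (P.Nn i : ℝ) / (P.q : ℝ) ^ i

theorem pot_eq (j : ℕ) : P.pot j = (P.q : ℝ) ^ j * P.Mm j - P.K0 j := by
  unfold pot Mm K0
  rw [Finset.mul_sum, ← Finset.sum_sub_distrib]
  apply Finset.sum_congr rfl
  intro i hi
  rw [Finset.mem_Icc] at hi
  have hq : (0 : ℝ) < (P.q : ℝ) ^ i := pow_pos P.q_pos' _
  have : (P.q : ℝ) ^ j = (P.q : ℝ) ^ (j - i) * (P.q : ℝ) ^ i := by
    rw [← pow_add]; congr 1; omega
  rw [this]
  field_simp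

theorem K0_nonneg (j : ℕ) : 0 ≤ P.K0 j := Finset.sum_nonneg fun _ _ => Nat.cast_nonneg _

theorem Mm_nonneg (j : ℕ) : 0 ≤ P.Mm j :=
  Finset.sum_nonneg fun _ _ => div_nonneg (Nat.cast_nonneg _) (pow_nonneg P.q_pos'.le _)

theorem Mm_mono {i j : ℕ} (h : i ≤ j) : P.Mm i ≤ P.Mm j := by
  apply Finset.sum_le_sum_of_subset_of_nonneg
  · intro k hk
    rw [Finset.mem_Icc] at hk ⊢
    omega
  · intro k _ _
    exact div_nonneg (Nat.cast_nonneg _) (pow_nonneg P.q_pos'.le _)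

/-- there is an element with a pole -/
theorem exists_pole : ∃ (t : R) (v : S), t ≠ 0 ∧ 1 ≤ P.lev v t := by
  obtain ⟨t, ht⟩ := (P.finite_box fun _ => 0).infinite_compl.nonempty
  rw [Set.mem_compl_iff, Set.mem_ofPred_eq] at ht
  push Not at ht
  obtain ⟨v, h1, h2⟩ := ht
  exact ⟨t, v, h1, h2⟩

/-- elements are congruent to their `q^e`-th power modulo primes of degree dividing `e` -/
theorem pow_sub_mem {p : Ideal R} (hp : p.IsPrime) (h0 : p ≠ ⊥) {e : ℕ} (he : P.dg p ∣ e) (t : R) :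
    t ^ (P.q ^ e) - t ∈ p := by
  have hfin : Finite (R ⧸ p) := Ring.HasFiniteQuotients.finiteQuotient h0
  have := Fintype.ofFinite (R ⧸ p)
  have hmax : p.IsMaximal := hp.isMaximal h0
  let := Ideal.Quotient.field p
  obtain ⟨k, rfl⟩ := he
  have hcard : Fintype.card (R ⧸ p) = P.q ^ P.dg p := by
    rw [← Nat.card_eq_fintype_card]
    exact P.card_quot p h0
  rw [← Ideal.Quotient.eq, map_pow, pow_mul, ← hcard]
  exact FiniteField.pow_card_pow k _

theorem exists_cheb : ∃ C : ℝ, 0 < C ∧ ∀ e : ℕ, 1 ≤ e → (P.Nn e : ℝ) ≤ C * (P.q : ℝ) ^ e := by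
  classical
  obtain ⟨t, v, ht, hv⟩ := P.exists_pole
  refine ⟨∑ v, (P.d v : ℝ) * (max (P.lev v t) 0 : ℤ), ?_, ?_⟩
  · apply Finset.sum_pos'
    · intro w _
      have : (0 : ℝ) ≤ ((max (P.lev w t) 0 : ℤ) : ℝ) := by exact_mod_cast le_max_right _ _
      positivity
    · refine ⟨v, Finset.mem_univ v, ?_⟩
      have h1 : (0 : ℝ) < P.d v := by exact_mod_cast P.one_le_d v
      have h2 : (0 : ℝ) < ((max (P.lev v t) 0 : ℤ) : ℝ) := by
        exact_mod_cast lt_of_lt_of_le (by omega) (le_max_left (P.lev v t) 0)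
      positivity
  · intro e he
    have hq1 : 1 < P.q ^ e := Nat.one_lt_pow (by omega) (by have := P.two_le_q; omega)
    have hne : t ^ (P.q ^ e) ≠ t := by
      intro h
      have h1 := P.lev_pow v ht (P.q ^ e)
      rw [h] at h1
      have h2 : (1 : ℤ) < ((P.q ^ e : ℕ) : ℤ) := by exact_mod_cast hq1
      nlinarith
    have h0 : t ^ (P.q ^ e) - t ≠ 0 := sub_ne_zero.2 hne
    -- lower bound of the degree
    have h1 := (stmt_Fact R S P ⊤ top_ne_bot _ (trivial : t ^ (P.q ^ e) - t ∈ (⊤ : Ideal R)) h0 e).1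
    simp only [Ideal.mul_top, P.dg_top] at h1
    rw [P.sum_reindex e fun p k => (P.dg p : ℝ) * (if t ^ (P.q ^ e) - t ∈ p ^ k then 1 else 0)] at h1
    have h2 : (P.Nn e : ℝ) ≤ ∑ p ∈ P.primes e, ∑ k ∈ Icc 1 (e / P.dg p),
        (P.dg p : ℝ) * (if t ^ (P.q ^ e) - t ∈ p ^ k then 1 else 0) := by
      rw [Nn, Nat.cast_sum]
      refine le_trans (Finset.sum_le_sum (g := fun p => ∑ k ∈ Icc 1 (e / P.dg p),
        (P.dg p : ℝ) * (if t ^ (P.q ^ e) - t ∈ p ^ k then 1 else 0)) fun p hp => ?_)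
        (Finset.sum_le_sum_of_subset_of_nonneg (Finset.filter_subset _ _) fun p _ _ =>
          Finset.sum_nonneg fun k _ => by positivity)
      rw [Finset.mem_filter, P.mem_primes] at hp
      obtain ⟨⟨hp1, hp2, hp3⟩, hp4⟩ := hp
      have hmem : 1 ∈ Icc 1 (e / P.dg p) :=
        Finset.mem_Icc.2 ⟨le_rfl, Nat.div_pos hp3 (P.one_le_dg hp1 hp2)⟩
      refine le_trans ?_ (Finset.single_le_sum (f := fun k => (P.dg p : ℝ) *
        (if t ^ (P.q ^ e) - t ∈ p ^ k then 1 else 0)) (fun k _ => by positivity) hmem)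
      simp only [pow_one]
      rw [if_pos (P.pow_sub_mem hp1 hp2 hp4 t), mul_one]
    -- upper bound of the degree
    have h3 : (P.dg (Ideal.span {t ^ (P.q ^ e) - t}) : ℝ) ≤
        (∑ v, (P.d v : ℝ) * (max (P.lev v t) 0 : ℤ)) * (P.q : ℝ) ^ e := by
      have h4 := P.dg_span _ h0
      have h5 : (P.dg (Ideal.span {t ^ (P.q ^ e) - t}) : ℤ) ≤
          (∑ v, (P.d v : ℤ) * (max (P.lev v t) 0)) * (P.q : ℤ) ^ e := by
        rw [h4, Finset.sum_mul]
        apply Finset.sum_le_sum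
        intro w _
        rw [mul_assoc]
        apply mul_le_mul_of_nonneg_left _ (Nat.cast_nonneg _)
        have h6 : P.lev w (t ^ (P.q ^ e) - t) ≤ max (P.lev w (t ^ (P.q ^ e))) (P.lev w (-t)) := by
          rw [sub_eq_add_neg] at h0 ⊢
          exact P.lev_add w _ _ (pow_ne_zero _ ht) (neg_ne_zero.2 ht) h0
        rw [P.lev_neg, P.lev_pow w ht] at h6
        refine h6.trans (max_le ?_ ?_)
        · push_cast
          rw [mul_comm]
          exact mul_le_mul_of_nonneg_right (le_max_left _ _) (by positivity)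
        · have h7 : (1 : ℤ) ≤ (P.q : ℤ) ^ e := by exact_mod_cast hq1.le
          have h8 := le_max_left (P.lev w t) 0
          have h9 := le_max_right (P.lev w t) 0
          nlinarith
      exact_mod_cast h5
    rw [Nat.cast_zero, sub_zero] at h1
    exact h2.trans (h1.trans h3)

theorem K0_le {C : ℝ} (hC : 0 < C) (h : ∀ e : ℕ, 1 ≤ e → (P.Nn e : ℝ) ≤ C * (P.q : ℝ) ^ e)
    (j : ℕ) : P.K0 j ≤ 2 * C * (P.q : ℝ) ^ j := by
  induction j with
  | zero => simp [K0]; positivity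
  | succ j ih =>
    have h1 : P.K0 (j + 1) = P.K0 j + P.Nn (j + 1) := by
      unfold K0
      rw [Finset.sum_Icc_succ_top (by omega)]
    have h2 := h (j + 1) (by omega)
    have hq : (2 : ℝ) ≤ P.q := by exact_mod_cast P.two_le_q
    have h3 : 2 * (P.q : ℝ) ^ j ≤ (P.q : ℝ) ^ (j + 1) := by
      rw [pow_succ']
      exact mul_le_mul_of_nonneg_right hq (pow_nonneg P.q_pos'.le _)
    rw [h1]
    nlinarith

/-- divisors of prescribed degree, up to a constant -/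
theorem exists_deg (v : S) (T : ℕ) : ∃ (m : S → ℤ) (D : ℕ), P.deg m = D ∧ T ≤ D ∧
    D ≤ T + P.d v := by
  classical
  have hd := P.one_le_d v
  refine ⟨Function.update (fun _ => 0) v ((T / P.d v + 1 : ℕ) : ℤ), (T / P.d v + 1) * P.d v, ?_, ?_,
    ?_⟩
  · rw [P.deg_update]
    have : P.deg (fun _ => 0) = 0 := by rw [P.deg_const]; simp
    rw [this]
    push_cast
    ring
  · have := Nat.lt_div_mul_add (a := T) hd
    rw [add_mul, one_mul]
    omega
  · rw [add_mul, one_mul]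
    have := Nat.div_mul_le_self T (P.d v)
    omega

theorem ln_le_of_box {m : S → ℤ} {D : ℕ} (hm : P.deg m = D) {x y : R}
    (hx : x ∈ P.box ⊤ m) (hy : y ∈ P.box ⊤ m) : P.ln x y ≤ D := by
  rcases eq_or_ne x y with h | h
  · rw [h, P.ln_self]
    positivity
  · rw [P.ln_of_ne h]
    rw [P.mem_box'] at hx hy
    have h1 := P.dg_span (x - y) (sub_ne_zero.2 h)
    have h2 : (P.dg (Ideal.span {x - y}) : ℤ) ≤ D := by
      rw [h1, ← hm]
      apply Finset.sum_le_sum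
      intro v _
      apply mul_le_mul_of_nonneg_left _ (Nat.cast_nonneg _)
      exact (near_trans (hx.2 v) (near_symm (hy.2 v))).resolve_left h
    exact_mod_cast h2

/-- upper bound of the potential -/
theorem exists_pot_le [Nonempty S] : ∃ C : ℝ, 0 < C ∧ ∀ j : ℕ,
    P.pot j ≤ (P.q : ℝ) ^ j * (j + C) := by
  classical
  obtain ⟨v⟩ := (inferInstance : Nonempty S)
  refine ⟨P.χ.natAbs + P.c₀ + P.d v, by have := P.one_le_c₀; positivity, fun j => ?_⟩
  obtain ⟨m, D, hm, hD1, hD2⟩ := P.exists_deg v (j + P.χ.natAbs + P.c₀)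
  have h1 := P.card_box_eq top_ne_bot (m := m) (by rw [P.dg_top, hm]; push_cast; omega)
  rw [P.dg_top, hm] at h1
  have h2 : P.q ^ j ≤ (P.box ⊤ m).card := by
    have : (P.q : ℝ) ^ (j : ℤ) ≤ (P.q : ℝ) ^ ((D : ℤ) - ((0 : ℕ) : ℤ) + P.χ) :=
      zpow_le_zpow_right₀ P.one_lt_q'.le (by push_cast; omega)
    rw [← h1, zpow_natCast] at this
    exact_mod_cast this
  obtain ⟨B, hB, hBc⟩ := Finset.exists_subset_card_eq h2
  have h3 := (stmt_Pot R S P).2.2 B j
  have hq : (0 : ℝ) < (P.q : ℝ) ^ j := pow_pos P.q_pos' _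
  have h4 : ∑ i ∈ Icc 1 j, (P.Nn i : ℝ) * ((B.card : ℝ) * ((B.card : ℝ) / (P.q : ℝ) ^ i - 1)) =
      (P.q : ℝ) ^ j * P.pot j := by
    unfold pot
    rw [Finset.mul_sum]
    apply Finset.sum_congr rfl
    intro i hi
    rw [Finset.mem_Icc] at hi
    rw [hBc]
    push_cast
    have h5 : (P.q : ℝ) ^ j / (P.q : ℝ) ^ i = (P.q : ℝ) ^ (j - i) := by
      rw [div_eq_iff (pow_pos P.q_pos' _).ne', ← pow_add]
      congr 1; omega
    rw [h5]
    ring
  have h5 : ∑ x ∈ B, ∑ y ∈ B, P.ln x y ≤ ∑ x ∈ B, ∑ y ∈ B, (D : ℝ) :=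
    Finset.sum_le_sum fun x hx => Finset.sum_le_sum fun y hy => P.ln_le_of_box hm (hB hx) (hB hy)
  rw [Finset.sum_const, Finset.sum_const, hBc, nsmul_eq_mul, nsmul_eq_mul] at h5
  push_cast at h5
  rw [h4] at h3
  have h6 : (P.q : ℝ) ^ j * P.pot j ≤ (P.q : ℝ) ^ j * ((P.q : ℝ) ^ j * D) := h3.trans h5
  have h7 : P.pot j ≤ (P.q : ℝ) ^ j * D := le_of_mul_le_mul_left h6 hq
  refine h7.trans (mul_le_mul_of_nonneg_left ?_ hq.le)
  have h8 : (D : ℝ) ≤ ((j + P.χ.natAbs + P.c₀ + P.d v : ℕ) : ℝ) := by exact_mod_cast hD2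
  push_cast at h8 ⊢
  linarith

end Pack

end Pool.Agent.Work.MP_b29d7f_nt.FF
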