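import Pool.Agent.Work.MP_b29d7f_nt_helper80.MerA

/-!
# Block MER, part B: lower bound (products of the elements of boxes)
-/

set_option linter.unusedSectionVars false

namespace Pool.Agent.Work.MP_b29d7f_nt.FF

open Finset Polynomial
open Pool.Agent.Work.MP_b29d7f_nt.Ded

universe u

namespace Pack

variable {R : Type u} [CommRing R] [IsDedekindDomain R] [Ring.HasFiniteQuotients R] [Infinite R]
  {S : Type u} [Fintype S] (P : Pack R S)

/-- geometric sum -/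
theorem geom_le (D : ℕ) : ∑ i ∈ Icc 1 D, ((P.q : ℝ) ^ i)⁻¹ ≤ 1 := by
  have key : ∀ D : ℕ, ∑ i ∈ Icc 1 D, ((P.q : ℝ) ^ i)⁻¹ ≤ 1 - ((P.q : ℝ) ^ D)⁻¹ := by
    intro D
    induction D with
    | zero => simp
    | succ D ih =>
      rw [Finset.sum_Icc_succ_top (by omega)]
      have hq : (2 : ℝ) ≤ P.q := by exact_mod_cast P.two_le_q
      have h1 : 0 < (P.q : ℝ) ^ D := pow_pos P.q_pos' _
      have h2 : 2 * ((P.q : ℝ) ^ (D + 1))⁻¹ ≤ ((P.q : ℝ) ^ D)⁻¹ := by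
        rw [pow_succ, mul_inv, ← mul_assoc, mul_comm (2 : ℝ), mul_assoc]
        have h3 : 2 * (P.q : ℝ)⁻¹ ≤ 1 := by
          rw [← div_eq_mul_inv, div_le_one P.q_pos']
          exact hq
        exact mul_le_of_le_one_right (inv_pos.2 h1).le h3
      linarith
  have h1 : 0 < ((P.q : ℝ) ^ D)⁻¹ := inv_pos.2 (pow_pos P.q_pos' _)
  linarith [key D]

theorem le_pow' (D : ℕ) : (D : ℝ) ≤ (P.q : ℝ) ^ D := by
  have h1 : D ≤ P.q ^ D := (Nat.lt_pow_self P.two_le_q).le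
  exact_mod_cast h1

open scoped Classical in
/-- the defects of the elements of a box -/
theorem sum_defect_le {c₁ : ℕ} (hc₁ : ∀ I : Ideal R, I ≠ ⊥ → ∀ m : S → ℤ,
    ((P.box I m).card : ℝ) ≤ max ((P.q : ℝ) ^ (P.deg m - P.dg I + P.χ)) ((P.q : ℝ) ^ c₁))
    {m : S → ℤ} {D : ℕ} (hm : P.deg m = D) :
    ∑ x ∈ (P.box ⊤ m).erase 0, ((D : ℝ) - P.dg (Ideal.span {x})) ≤
      (∑ v, (P.d v : ℝ)) * ((P.q : ℝ) ^ D * (P.q : ℝ) ^ P.χ + D * (P.q : ℝ) ^ c₁) := by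
  classical
  have hbox : ∀ x ∈ (P.box ⊤ m).erase 0, x ≠ 0 ∧ ∀ v, P.lev v x ≤ m v := by
    intro x hx
    have h1 := Finset.ne_of_mem_erase hx
    have h2 := (P.mem_box.1 (Finset.mem_of_mem_erase hx)).2
    exact ⟨h1, fun v => (h2 v).resolve_left h1⟩
  have hval : ∀ x ∈ (P.box ⊤ m).erase 0, ((D : ℝ) - P.dg (Ideal.span {x})) =
      ∑ v, (P.d v : ℝ) * ((m v - P.lev v x : ℤ) : ℝ) := by
    intro x hx
    have h1 := P.dg_span x (hbox x hx).1
    have h2 : ((D : ℤ) - P.dg (Ideal.span {x}) : ℤ) = ∑ v, (P.d v : ℤ) * (m v - P.lev v x) := by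
      rw [h1, ← hm, deg, ← Finset.sum_sub_distrib]
      exact Finset.sum_congr rfl fun v _ => by ring
    have h3 : (((D : ℤ) - P.dg (Ideal.span {x}) : ℤ) : ℝ) =
        ((∑ v, (P.d v : ℤ) * (m v - P.lev v x) : ℤ) : ℝ) := by rw [h2]
    push_cast at h3 ⊢
    exact h3
  rw [Finset.sum_congr rfl hval, Finset.sum_comm, Finset.sum_mul]
  apply Finset.sum_le_sum
  intro v _
  rw [← Finset.mul_sum]
  apply mul_le_mul_of_nonneg_left _ (Nat.cast_nonneg _)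
  -- count
  have hcount : ∀ x ∈ (P.box ⊤ m).erase 0, ((m v - P.lev v x : ℤ) : ℝ) ≤
      ∑ i ∈ Icc 1 D, if P.lev v x ≤ m v - i then (1 : ℝ) else 0 := by
    intro x hx
    obtain ⟨hx0, hlev⟩ := hbox x hx
    have h0 : 0 ≤ m v - P.lev v x := sub_nonneg.2 (hlev v)
    have h1 : m v - P.lev v x ≤ D := by
      have h2 := P.dg_span x hx0
      have h3 : ((D : ℤ) - P.dg (Ideal.span {x}) : ℤ) = ∑ v, (P.d v : ℤ) * (m v - P.lev v x) := by
        rw [h2, ← hm, deg, ← Finset.sum_sub_distrib]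
        exact Finset.sum_congr rfl fun v _ => by ring
      have h4 : (P.d v : ℤ) * (m v - P.lev v x) ≤ ∑ v, (P.d v : ℤ) * (m v - P.lev v x) :=
        Finset.single_le_sum (f := fun v => (P.d v : ℤ) * (m v - P.lev v x))
          (fun w _ => mul_nonneg (Nat.cast_nonneg _) (sub_nonneg.2 (hlev w))) (Finset.mem_univ v)
      have h5 : (1 : ℤ) ≤ P.d v := by exact_mod_cast P.one_le_d v
      have h6 : (0 : ℤ) ≤ P.dg (Ideal.span {x}) := Nat.cast_nonneg _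
      nlinarith
    rw [Finset.sum_boole]
    have h2 : (Icc 1 D).filter (fun i : ℕ => P.lev v x ≤ m v - i) =
        Icc 1 (m v - P.lev v x).toNat := by
      ext i
      simp only [Finset.mem_filter, Finset.mem_Icc]
      omega
    rw [h2, Nat.card_Icc, Nat.add_sub_cancel]
    have h3 : ((m v - P.lev v x).toNat : ℤ) = m v - P.lev v x := Int.toNat_of_nonneg h0
    have h4 : (((m v - P.lev v x).toNat : ℤ) : ℝ) = ((m v - P.lev v x : ℤ) : ℝ) := by rw [h3]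
    rw [← h4]
    norm_cast
  refine (Finset.sum_le_sum hcount).trans ?_
  rw [Finset.sum_comm]
  have hi : ∀ i ∈ Icc 1 D, ∑ x ∈ (P.box ⊤ m).erase 0, (if P.lev v x ≤ m v - i then (1 : ℝ) else 0) ≤
      (P.q : ℝ) ^ D * (P.q : ℝ) ^ P.χ * ((P.q : ℝ) ^ i)⁻¹ + (P.q : ℝ) ^ c₁ := by
    intro i hi
    rw [Finset.mem_Icc] at hi
    rw [Finset.sum_boole]
    have h1 : ((P.box ⊤ m).erase 0).filter (fun x => P.lev v x ≤ m v - i) ⊆
        P.box ⊤ (Function.update m v (m v - i)) := by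
      intro x hx
      rw [Finset.mem_filter] at hx
      obtain ⟨hx0, hlev⟩ := hbox x hx.1
      rw [P.mem_box]
      refine ⟨trivial, fun w => Or.inr ?_⟩
      by_cases hw : w = v
      · subst hw
        rw [Function.update_self]
        exact hx.2
      · rw [Function.update_of_ne hw]
        exact hlev w
    have h2 : ((((P.box ⊤ m).erase 0).filter (fun x => P.lev v x ≤ m v - i)).card : ℝ) ≤
        (P.box ⊤ (Function.update m v (m v - i))).card := by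
      exact_mod_cast Finset.card_le_card h1
    refine h2.trans ((hc₁ ⊤ top_ne_bot _).trans ?_)
    have hA : 0 < (P.q : ℝ) ^ P.χ := zpow_pos P.q_pos' _
    have hD : 0 < (P.q : ℝ) ^ D := pow_pos P.q_pos' _
    have hI : 0 < (P.q : ℝ) ^ i := pow_pos P.q_pos' _
    have hC : 0 < (P.q : ℝ) ^ c₁ := pow_pos P.q_pos' _
    apply max_le
    · have h3 : (P.q : ℝ) ^ (P.deg (Function.update m v (m v - i)) - P.dg (⊤ : Ideal R) + P.χ) ≤
          (P.q : ℝ) ^ ((D : ℤ) + P.χ - i) := by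
        apply zpow_le_zpow_right₀ P.one_lt_q'.le
        rw [P.deg_update, P.dg_top, hm]
        have h5 : (1 : ℤ) ≤ P.d v := by exact_mod_cast P.one_le_d v
        have h6 : (1 : ℤ) ≤ i := by exact_mod_cast hi.1
        push_cast
        nlinarith
      have h7 : (P.q : ℝ) ^ ((D : ℤ) + P.χ - i) =
          (P.q : ℝ) ^ D * (P.q : ℝ) ^ P.χ * ((P.q : ℝ) ^ i)⁻¹ := by
        rw [zpow_sub₀ P.q_pos'.ne', zpow_add₀ P.q_pos'.ne', zpow_natCast, zpow_natCast,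
          div_eq_mul_inv]
      rw [h7] at h3
      linarith
    · have : 0 ≤ (P.q : ℝ) ^ D * (P.q : ℝ) ^ P.χ * ((P.q : ℝ) ^ i)⁻¹ := by positivity
      linarith
  refine (Finset.sum_le_sum hi).trans ?_
  rw [Finset.sum_add_distrib, ← Finset.mul_sum, Finset.sum_const, Nat.card_Icc, nsmul_eq_mul,
    Nat.add_sub_cancel]
  have hA : 0 < (P.q : ℝ) ^ D * (P.q : ℝ) ^ P.χ := mul_pos (pow_pos P.q_pos' _) (zpow_pos P.q_pos' _)
  have := mul_le_of_le_one_right hA.le (P.geom_le D)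
  linarith

open scoped Classical in
/-- the degrees of the elements of a box, from above -/
theorem sum_dg_le {c₁ : ℕ} (hc₁ : ∀ I : Ideal R, I ≠ ⊥ → ∀ m : S → ℤ,
    ((P.box I m).card : ℝ) ≤ max ((P.q : ℝ) ^ (P.deg m - P.dg I + P.χ)) ((P.q : ℝ) ^ c₁))
    {m : S → ℤ} {D : ℕ} (hm : P.deg m = D) :
    ∑ x ∈ (P.box ⊤ m).erase 0, (P.dg (Ideal.span {x}) : ℝ) ≤
      (P.q : ℝ) ^ D * (P.q : ℝ) ^ P.χ * P.Mm D + (P.q : ℝ) ^ c₁ * P.K0 D := by
  classical
  have h1 : ∀ x ∈ (P.box ⊤ m).erase 0, (P.dg (Ideal.span {x}) : ℝ) =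
      ∑ i ∈ Icc 1 D, ∑ p ∈ (P.primes i).filter (fun p => P.dg p ∣ i),
        (P.dg p : ℝ) * (if (0 : R) - x ∈ p ^ (i / P.dg p) then 1 else 0) := by
    intro x hx
    have hx0 := Finset.ne_of_mem_erase hx
    have hxb := Finset.mem_of_mem_erase hx
    have h2 : P.ln 0 x = P.dg (Ideal.span {x}) := by
      rw [P.ln_of_ne (Ne.symm hx0), zero_sub, Ideal.span_singleton_neg]
    have h3 := P.ln_le_of_box hm (P.zero_mem_box ⊤ m) hxb
    rw [h2] at h3
    rw [← h2]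
    apply P.ln_fact_eq (Ne.symm hx0)
    rw [zero_sub, Ideal.span_singleton_neg]
    exact_mod_cast h3
  rw [Finset.sum_congr rfl h1, P.sum_fact]
  have h2 : (P.q : ℝ) ^ D * (P.q : ℝ) ^ P.χ * P.Mm D + (P.q : ℝ) ^ c₁ * P.K0 D =
      ∑ i ∈ Icc 1 D, (P.Nn i : ℝ) *
        ((P.q : ℝ) ^ D * (P.q : ℝ) ^ P.χ * ((P.q : ℝ) ^ i)⁻¹ + (P.q : ℝ) ^ c₁) := by
    unfold Mm K0
    rw [Finset.mul_sum, Finset.mul_sum, ← Finset.sum_add_distrib]
    apply Finset.sum_congr rfl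
    intro i _
    rw [div_eq_mul_inv]
    ring
  rw [h2]
  apply Finset.sum_le_sum
  intro i hi
  rw [Nn, Nat.cast_sum, Finset.sum_mul]
  apply Finset.sum_le_sum
  intro p hp
  apply mul_le_mul_of_nonneg_left _ (Nat.cast_nonneg _)
  rw [Finset.mem_filter, P.mem_primes] at hp
  obtain ⟨⟨hp1, hp2, hp3⟩, hp4⟩ := hp
  have hk : i / P.dg p * P.dg p = i := Nat.div_mul_cancel hp4
  have hpk : p ^ (i / P.dg p) ≠ ⊥ := pow_ne_zero (i / P.dg p) hp2
  have h3 : ((P.box ⊤ m).erase 0).filter (fun b => (0 : R) - b ∈ p ^ (i / P.dg p)) ⊆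
      P.box (p ^ (i / P.dg p)) m := by
    intro x hx
    rw [Finset.mem_filter] at hx
    rw [P.mem_box]
    refine ⟨?_, (P.mem_box.1 (Finset.mem_of_mem_erase hx.1)).2⟩
    have h4 := hx.2
    rwa [zero_sub, neg_mem_iff] at h4
  have h4 : ((((P.box ⊤ m).erase 0).filter
      (fun b => (0 : R) - b ∈ p ^ (i / P.dg p))).card : ℝ) ≤ (P.box (p ^ (i / P.dg p)) m).card := by
    exact_mod_cast Finset.card_le_card h3
  refine h4.trans ((hc₁ _ hpk _).trans ?_)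
  have hA : 0 < (P.q : ℝ) ^ P.χ := zpow_pos P.q_pos' _
  have hD : 0 < (P.q : ℝ) ^ D := pow_pos P.q_pos' _
  have hI : 0 < (P.q : ℝ) ^ i := pow_pos P.q_pos' _
  have hC : 0 < (P.q : ℝ) ^ c₁ := pow_pos P.q_pos' _
  apply max_le
  · rw [hm, P.dg_pow hp2, hk]
    have h5 : (P.q : ℝ) ^ ((D : ℤ) - (i : ℕ) + P.χ) =
        (P.q : ℝ) ^ D * (P.q : ℝ) ^ P.χ * ((P.q : ℝ) ^ i)⁻¹ := by
      rw [zpow_add₀ P.q_pos'.ne', zpow_sub₀ P.q_pos'.ne', zpow_natCast, zpow_natCast,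
        div_eq_mul_inv]
      ring
    rw [h5]
    linarith
  · have : 0 ≤ (P.q : ℝ) ^ D * (P.q : ℝ) ^ P.χ * ((P.q : ℝ) ^ i)⁻¹ := by positivity
    linarith

/-- lower bound of `M` -/
theorem exists_le_Mm [Nonempty S] : ∃ C : ℝ, 0 < C ∧ ∀ j : ℕ, (j : ℝ) - C ≤ P.Mm j := by
  classical
  obtain ⟨C1, hC1, hN⟩ := P.exists_cheb
  obtain ⟨c₁, hc₁⟩ := P.exists_card_box_le
  obtain ⟨v⟩ := (inferInstance : Nonempty S)
  set A := (P.q : ℝ) ^ P.χ with hA
  have hA0 : 0 < A := zpow_pos P.q_pos' _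
  set W := ∑ v, (P.d v : ℝ) with hW
  have hW0 : 0 ≤ W := Finset.sum_nonneg fun _ _ => Nat.cast_nonneg _
  set E := (P.q : ℝ) ^ c₁ with hE
  have hE0 : 0 < E := pow_pos P.q_pos' _
  -- for degrees of divisors
  have hdeg : ∀ (m : S → ℤ) (D : ℕ), P.deg m = D → P.c₀ ≤ D →
      (D : ℝ) - (A⁻¹ + W + W * E * A⁻¹ + 2 * C1 * E * A⁻¹) ≤ P.Mm D := by
    intro m D hm hD
    have h1 := P.card_box_eq top_ne_bot (m := m) (by rw [P.dg_top, hm]; push_cast; omega)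
    have hQ : 0 < (P.q : ℝ) ^ D := pow_pos P.q_pos' _
    rw [P.dg_top, hm, Nat.cast_zero, sub_zero, zpow_add₀ P.q_pos'.ne', zpow_natCast] at h1
    have h2 := P.sum_defect_le hc₁ hm
    have h3 := P.sum_dg_le hc₁ hm
    rw [Finset.sum_sub_distrib, Finset.sum_const, nsmul_eq_mul,
      Finset.card_erase_of_mem (P.zero_mem_box ⊤ m), Nat.cast_sub (P.one_le_card_box ⊤ m), h1,
      Nat.cast_one] at h2
    have h4 := P.K0_le hC1 hN D
    have h5 := P.le_pow' D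
    set Q := (P.q : ℝ) ^ D with hQd
    have h6 : (Q * A - 1) * D - W * (Q * A + D * E) ≤ Q * A * P.Mm D + E * P.K0 D := by linarith
    have h7 : E * P.K0 D ≤ E * (2 * C1 * Q) := mul_le_mul_of_nonneg_left h4 hE0.le
    have h8 : W * (D * E) ≤ W * (Q * E) :=
      mul_le_mul_of_nonneg_left (mul_le_mul_of_nonneg_right h5 hE0.le) hW0
    have h9 : Q * A * (D - (A⁻¹ + W + W * E * A⁻¹ + 2 * C1 * E * A⁻¹)) ≤ Q * A * P.Mm D := by
      have e1 : Q * A * (D - (A⁻¹ + W + W * E * A⁻¹ + 2 * C1 * E * A⁻¹)) =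
          Q * A * D - Q - W * (Q * A) - W * (Q * E) - E * (2 * C1 * Q) := by
        field_simp
        ring
      rw [e1]
      nlinarith
    exact le_of_mul_le_mul_left h9 (mul_pos hQ hA0)
  set C2 := A⁻¹ + W + W * E * A⁻¹ + 2 * C1 * E * A⁻¹ with hC2
  have hC20 : 0 < C2 := by positivity
  refine ⟨C2 + C1 * (P.c₀ + P.d v), by positivity, fun j => ?_⟩
  obtain ⟨m, D, hm, hD1, hD2⟩ := P.exists_deg v (j + P.c₀)
  have h1 := hdeg m D hm (by omega)
  have h2 : P.Mm D ≤ P.Mm j + C1 * (P.c₀ + P.d v) := by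
    have h3 : P.Mm D = P.Mm j + ∑ i ∈ Ioc j D, (P.Nn i : ℝ) / (P.q : ℝ) ^ i := by
      unfold Mm
      have h4 : Icc 1 D = Icc 1 j ∪ Ioc j D := by
        ext i
        simp only [Finset.mem_Icc, Finset.mem_union, Finset.mem_Ioc]
        omega
      have h5 : Disjoint (Icc 1 j) (Ioc j D) := by
        rw [Finset.disjoint_left]
        intro i
        simp only [Finset.mem_Icc, Finset.mem_Ioc]
        omega
      rw [h4, Finset.sum_union h5]
    have h4 : ∑ i ∈ Ioc j D, (P.Nn i : ℝ) / (P.q : ℝ) ^ i ≤ ∑ i ∈ Ioc j D, C1 := by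
      apply Finset.sum_le_sum
      intro i hi
      rw [Finset.mem_Ioc] at hi
      rw [div_le_iff₀ (pow_pos P.q_pos' _)]
      exact hN i (by omega)
    rw [Finset.sum_const, Nat.card_Ioc, nsmul_eq_mul] at h4
    have h5 : ((D - j : ℕ) : ℝ) ≤ P.c₀ + P.d v := by
      have : D - j ≤ P.c₀ + P.d v := by omega
      exact_mod_cast this
    rw [h3]
    nlinarith
  have h3 : (j : ℝ) ≤ D := by
    have : j ≤ D := by omega
    exact_mod_cast this
  linarith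

end Pack

end Pool.Agent.Work.MP_b29d7f_nt.FF
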