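import Pool.Agent.Work.MP_b29d7f_nt_helper80.Fact

/-!
# Block POT
-/

set_option linter.unusedSectionVars false

namespace Pool.Agent.Work.MP_b29d7f_nt.FF

open Finset Polynomial
open Pool.Agent.Work.MP_b29d7f_nt.Ded

universe u

namespace Pack

variable {R : Type u} [CommRing R] [IsDedekindDomain R] [Ring.HasFiniteQuotients R] [Infinite R]
  {S : Type u} [Fintype S] (P : Pack R S)

open scoped Classical in
theorem ln_fact_le {x y : R} (h : x ≠ y) (D : ℕ) :
    ∑ i ∈ Icc 1 D, ∑ p ∈ (P.primes i).filter (fun p => P.dg p ∣ i),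
      (P.dg p : ℝ) * (if x - y ∈ p ^ (i / P.dg p) then 1 else 0) ≤ P.ln x y := by
  have h1 := (stmt_Fact R S P ⊤ top_ne_bot (x - y) trivial (sub_ne_zero.2 h) D).1
  simp only [Ideal.mul_top, P.dg_top] at h1
  rw [P.ln_of_ne h]
  simpa using h1

open scoped Classical in
theorem ln_fact_eq {x y : R} (h : x ≠ y) (D : ℕ) (hD : P.dg (Ideal.span {x - y}) ≤ D) :
    P.ln x y = ∑ i ∈ Icc 1 D, ∑ p ∈ (P.primes i).filter (fun p => P.dg p ∣ i),
      (P.dg p : ℝ) * (if x - y ∈ p ^ (i / P.dg p) then 1 else 0) := by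
  have h1 := (stmt_Fact R S P ⊤ top_ne_bot (x - y) trivial (sub_ne_zero.2 h) D).2
  simp only [Ideal.mul_top, P.dg_top] at h1
  rw [P.ln_of_ne h]
  simpa using h1 (by omega)

open scoped Classical in
/-- sums of the expansion over a finite set -/
theorem sum_fact (A : Finset R) (x : R) (D : ℕ) :
    ∑ b ∈ A, ∑ i ∈ Icc 1 D, ∑ p ∈ (P.primes i).filter (fun p => P.dg p ∣ i),
      (P.dg p : ℝ) * (if x - b ∈ p ^ (i / P.dg p) then 1 else 0) =
    ∑ i ∈ Icc 1 D, ∑ p ∈ (P.primes i).filter (fun p => P.dg p ∣ i),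
      (P.dg p : ℝ) * ((A.filter fun b => x - b ∈ p ^ (i / P.dg p)).card : ℝ) := by
  rw [Finset.sum_comm]
  apply Finset.sum_congr rfl
  intro i _
  rw [Finset.sum_comm]
  apply Finset.sum_congr rfl
  intro p _
  rw [← Finset.mul_sum, Finset.sum_boole]

open scoped Classical in
/-- Cauchy-Schwarz for the number of congruent pairs. -/
theorem card_sq_le (B : Finset R) {I : Ideal R} (hI : I ≠ ⊥) :
    (B.card : ℝ) ^ 2 ≤ (P.q : ℝ) ^ P.dg I *
      ∑ x ∈ B, ((B.filter fun y => x - y ∈ I).card : ℝ) := by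
  have hfin : Finite (R ⧸ I) := Ring.HasFiniteQuotients.finiteQuotient hI
  have := Fintype.ofFinite (R ⧸ I)
  set mk : R → R ⧸ I := fun x => Ideal.Quotient.mk I x with hmk
  set T := B.image mk with hT
  have h1 : (B.card : ℝ) = ∑ c ∈ T, ((B.filter fun y => mk y = c).card : ℝ) := by
    have := Finset.card_eq_sum_card_image mk B
    exact_mod_cast this
  have h2 : ∑ x ∈ B, ((B.filter fun y => x - y ∈ I).card : ℝ) =
      ∑ c ∈ T, ((B.filter fun y => mk y = c).card : ℝ) ^ 2 := by
    have h3 : ∀ x ∈ B, ((B.filter fun y => x - y ∈ I).card : ℝ) =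
        ((B.filter fun y => mk y = mk x).card : ℝ) := by
      intro x _
      congr 2
      apply Finset.filter_congr
      intro y _
      show x - y ∈ I ↔ Ideal.Quotient.mk I y = Ideal.Quotient.mk I x
      constructor
      · intro h
        exact (Ideal.Quotient.eq.2 h).symm
      · intro h
        exact Ideal.Quotient.eq.1 h.symm
    rw [Finset.sum_congr rfl h3, ← Finset.sum_fiberwise_of_maps_to (t := T) (g := mk)
      (fun x hx => Finset.mem_image_of_mem _ hx)]
    apply Finset.sum_congr rfl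
    intro c _
    have h4 : ∀ x ∈ B.filter (fun x => mk x = c), ((B.filter fun y => mk y = mk x).card : ℝ) =
        ((B.filter fun y => mk y = c).card : ℝ) := by
      intro x hx
      rw [(Finset.mem_filter.1 hx).2]
    rw [Finset.sum_congr rfl h4, Finset.sum_const, nsmul_eq_mul, sq]
  have h5 : (T.card : ℝ) ≤ (P.q : ℝ) ^ P.dg I := by
    rw [← P.cast_card_quot hI]
    have : T.card ≤ Nat.card (R ⧸ I) := by
      rw [Nat.card_eq_fintype_card]
      exact Finset.card_le_univ _
    exact_mod_cast this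
  have h6 : (∑ c ∈ T, ((B.filter fun y => mk y = c).card : ℝ)) ^ 2 ≤
      T.card * ∑ c ∈ T, ((B.filter fun y => mk y = c).card : ℝ) ^ 2 := sq_sum_le_card_mul_sum_sq
  rw [h1, h2]
  exact h6.trans (mul_le_mul_of_nonneg_right h5 (Finset.sum_nonneg fun c _ => by positivity))

end Pack

theorem stmt_Pot : Stmt_Pot.{u} := by
  intro R _ _ _ _ S _ P
  classical
  refine ⟨?_, ?_, ?_⟩
  · intro j A hA x hx
    -- a common bound for the degrees
    obtain ⟨D, hjD, hD⟩ : ∃ D, j ≤ D ∧ ∀ b ∈ A.erase x, P.dg (Ideal.span {x - b}) ≤ D := by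
      refine ⟨max j (∑ b ∈ A.erase x, P.dg (Ideal.span {x - b})), le_max_left _ _, fun b hb => ?_⟩
      exact (Finset.single_le_sum (f := fun b => P.dg (Ideal.span {x - b}))
        (fun _ _ => Nat.zero_le _) hb).trans (le_max_right _ _)
    rw [← Finset.add_sum_erase _ _ hx, P.ln_self, zero_add]
    rw [Finset.sum_congr rfl fun b hb => P.ln_fact_eq (Finset.ne_of_mem_erase hb).symm D (hD b hb),
      P.sum_fact]
    have hcount : ∀ i ∈ Icc 1 D, ∀ p ∈ (P.primes i).filter (fun p => P.dg p ∣ i),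
        (((A.erase x).filter fun b => x - b ∈ p ^ (i / P.dg p)).card : ℝ) =
          if i ≤ j then (P.q : ℝ) ^ (j - i) - 1 else 0 := by
      intro i hi p hp
      rw [Finset.mem_filter, P.mem_primes] at hp
      obtain ⟨⟨hp1, hp2, hp3⟩, hp4⟩ := hp
      rw [Finset.mem_Icc] at hi
      have hk : i / P.dg p * P.dg p = i := Nat.div_mul_cancel hp4
      have hk1 : 1 ≤ i / P.dg p := Nat.div_pos hp3 (P.one_le_dg hp1 hp2)
      have hins : A.filter (fun b => x - b ∈ p ^ (i / P.dg p)) =
          insert x ((A.erase x).filter fun b => x - b ∈ p ^ (i / P.dg p)) := by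
        ext b
        simp only [Finset.mem_filter, Finset.mem_insert, Finset.mem_erase]
        constructor
        · rintro ⟨h1, h2⟩
          by_cases hb : b = x
          · exact Or.inl hb
          · exact Or.inr ⟨⟨hb, h1⟩, h2⟩
        · rintro (rfl | ⟨⟨_, h1⟩, h2⟩)
          · exact ⟨hx, by rw [sub_self]; exact zero_mem _⟩
          · exact ⟨h1, h2⟩
      have hcard : (A.filter (fun b => x - b ∈ p ^ (i / P.dg p))).card =
          ((A.erase x).filter fun b => x - b ∈ p ^ (i / P.dg p)).card + 1 := by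
        rw [hins, Finset.card_insert_of_notMem (by simp)]
      split_ifs with hij
      · have h1 := hA.eq p hp1 hp2 (i / P.dg p) hk1 (by rw [hk]; exact hij) x
        rw [hk, hcard] at h1
        have h2 : (((A.erase x).filter fun b => x - b ∈ p ^ (i / P.dg p)).card : ℝ) + 1 =
            (P.q : ℝ) ^ (j - i) := by exact_mod_cast h1
        linarith
      · have h1 := hA.le p hp1 hp2 (i / P.dg p) hk1 (by rw [hk]; omega) x
        rw [hcard] at h1
        have h2 : ((A.erase x).filter fun b => x - b ∈ p ^ (i / P.dg p)).card = 0 := by omega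
        rw [h2, Nat.cast_zero]
    have h1 : ∀ i ∈ Icc 1 D, ∑ p ∈ (P.primes i).filter (fun p => P.dg p ∣ i),
        (P.dg p : ℝ) * (((A.erase x).filter fun b => x - b ∈ p ^ (i / P.dg p)).card : ℝ) =
          if i ≤ j then (P.Nn i : ℝ) * ((P.q : ℝ) ^ (j - i) - 1) else 0 := by
      intro i hi
      rw [Finset.sum_congr rfl fun p hp => by rw [hcount i hi p hp]]
      rw [← Finset.sum_mul, Pack.Nn]
      push_cast
      split_ifs <;> simp
    rw [Finset.sum_congr rfl h1, ← Finset.sum_filter, Pack.pot]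
    apply Finset.sum_congr _ fun _ _ => rfl
    ext i
    simp only [Finset.mem_filter, Finset.mem_Icc]
    omega
  · intro j A hA y hy
    have h1 : ∑ b ∈ A, ∑ i ∈ Icc 1 j, ∑ p ∈ (P.primes i).filter (fun p => P.dg p ∣ i),
        (P.dg p : ℝ) * (if y - b ∈ p ^ (i / P.dg p) then 1 else 0) ≤ ∑ b ∈ A, P.ln y b :=
      Finset.sum_le_sum fun b hb => P.ln_fact_le (by rintro rfl; exact hy hb) j
    refine le_trans (le_of_eq ?_) h1
    rw [P.sum_fact, Pack.pot, Pack.K0, ← Finset.sum_add_distrib]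
    apply Finset.sum_congr rfl
    intro i hi
    rw [Finset.mem_Icc] at hi
    have h2 : ∀ p ∈ (P.primes i).filter (fun p => P.dg p ∣ i),
        (P.dg p : ℝ) * ((A.filter fun b => y - b ∈ p ^ (i / P.dg p)).card : ℝ) =
          (P.dg p : ℝ) * (P.q : ℝ) ^ (j - i) := by
      intro p hp
      rw [Finset.mem_filter, P.mem_primes] at hp
      obtain ⟨⟨hp1, hp2, hp3⟩, hp4⟩ := hp
      have hk : i / P.dg p * P.dg p = i := Nat.div_mul_cancel hp4
      have hk1 : 1 ≤ i / P.dg p := Nat.div_pos hp3 (P.one_le_dg hp1 hp2)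
      have h1 := hA.eq p hp1 hp2 (i / P.dg p) hk1 (by rw [hk]; exact hi.2) y
      rw [hk] at h1
      rw [h1]
      push_cast
      ring
    rw [Finset.sum_congr rfl h2, ← Finset.sum_mul, Pack.Nn]
    push_cast
    ring
  · intro B j
    have h1 : ∀ x ∈ B, ∑ y ∈ B, ∑ i ∈ Icc 1 j, ∑ p ∈ (P.primes i).filter (fun p => P.dg p ∣ i),
        (P.dg p : ℝ) * (if x - y ∈ p ^ (i / P.dg p) then 1 else 0) ≤
          ∑ y ∈ B, P.ln x y + ∑ i ∈ Icc 1 j, (P.Nn i : ℝ) := by
      intro x hx
      rw [← Finset.add_sum_erase _ _ hx, ← Finset.add_sum_erase B (fun y => P.ln x y) hx, P.ln_self,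
        zero_add, add_comm]
      apply add_le_add
      · exact Finset.sum_le_sum fun y hy => P.ln_fact_le (Finset.ne_of_mem_erase hy).symm j
      · apply Finset.sum_le_sum
        intro i _
        rw [Pack.Nn]
        push_cast
        apply Finset.sum_le_sum
        intro p _
        split_ifs <;> simp
    have h2 := Finset.sum_le_sum h1
    rw [Finset.sum_add_distrib, Finset.sum_const, nsmul_eq_mul] at h2
    simp only [P.sum_fact] at h2
    rw [Finset.sum_comm] at h2
    have h3 : ∑ i ∈ Icc 1 j, (P.Nn i : ℝ) * ((B.card : ℝ) * ((B.card : ℝ) / (P.q : ℝ) ^ i)) ≤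
        ∑ i ∈ Icc 1 j, ∑ x ∈ B, ∑ p ∈ (P.primes i).filter (fun p => P.dg p ∣ i),
      (P.dg p : ℝ) * ((B.filter fun b => x - b ∈ p ^ (i / P.dg p)).card : ℝ) := by
      apply Finset.sum_le_sum
      intro i hi
      rw [Finset.sum_comm, Pack.Nn, Nat.cast_sum, Finset.sum_mul]
      apply Finset.sum_le_sum
      intro p hp
      rw [← Finset.mul_sum]
      apply mul_le_mul_of_nonneg_left _ (Nat.cast_nonneg _)
      rw [Finset.mem_filter, P.mem_primes] at hp
      obtain ⟨⟨hp1, hp2, hp3⟩, hp4⟩ := hp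
      have hk : i / P.dg p * P.dg p = i := Nat.div_mul_cancel hp4
      have h4 := P.card_sq_le B (pow_ne_zero (i / P.dg p) hp2 : p ^ (i / P.dg p) ≠ 0)
      rw [P.dg_pow hp2, hk] at h4
      have hq : (0 : ℝ) < (P.q : ℝ) ^ i := pow_pos P.q_pos' _
      rw [← mul_div_assoc, ← sq, div_le_iff₀ hq, mul_comm]
      exact h4
    have h4 : ∑ i ∈ Icc 1 j, (P.Nn i : ℝ) *
        ((B.card : ℝ) * ((B.card : ℝ) / (P.q : ℝ) ^ i - 1)) =
        ∑ i ∈ Icc 1 j, (P.Nn i : ℝ) * ((B.card : ℝ) * ((B.card : ℝ) / (P.q : ℝ) ^ i)) -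
          B.card * ∑ i ∈ Icc 1 j, (P.Nn i : ℝ) := by
      rw [Finset.mul_sum, ← Finset.sum_sub_distrib]
      apply Finset.sum_congr rfl
      intro i _
      ring
    rw [h4]
    linarith

end Pool.Agent.Work.MP_b29d7f_nt.FF
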